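import Pool.Agent.Lib.MP_33ce69_lc.Five.Graph

/-!
Counting along the cells: at most one chord at a port of the board is used.
-/

namespace Pool.Agent.Lib.MP_33ce69_lc.Odd.Five

set_option maxHeartbeats 400000

open Board

variable {b : Board} {U : ℕ → ℕ → Prop} {o o' : ℕ}

theorem cut_used (h : b.Valid) (c : GC (2 * fM b) (A b) U) (p : Cp b o o') :
    U (o + (fM b - 1)) o' := by
  have e := fB_eq b
  have e' := fM_eq b
  have n2 := two_le h
  have key : ∀ x y, (o ≤ x ∧ x < o + fM b) → ¬ (o ≤ y ∧ y < o + fM b) → U x y →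
      (x = o ∧ y = o' + fM b - 1) ∨ (x = o + (fM b - 1) ∧ y = o') := fun x y x1 y1 u => by
    have a := c.sub x y u
    obtain ⟨v, rfl⟩ := Nat.exists_eq_add_of_le x1.1
    have hv : v < fM b := by omega
    have t := (cd_spec h hv).1
    rw [nbr h p hv, pv, nx] at a
    rcases a with a | a | a | ⟨w, a1, a2, a3⟩
    · split_ifs at a <;> omega
    · split_ifs at a <;> omega
    · omega
    · omega
  unfold Cp at p
  obtain ⟨x, y, x', y', h1, h2, h3, h4, h5, h6, h7⟩ := c.cut (fun x => o ≤ x ∧ x < o + fM b)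
    ⟨o, by omega, by omega⟩ ⟨o', by omega, by omega⟩
  rcases key x y h1 h2 h3 with a | ⟨rfl, rfl⟩
  · rcases key x' y' h4 h5 h6 with a' | ⟨rfl, rfl⟩
    · omega
    · exact h6
  · exact h3

/-- `p x`: the path edge after `x` is used; `c x`: the chord `cd x` at `x` is used -/
structure Cnt (b : Board) (p c : ℕ → ℕ) : Prop where
  pl : ∀ x, p x ≤ 1
  cl : ∀ x, c x ≤ 1
  zero : p 0 + c 0 = 1
  three : ∀ x, x + 2 < fM b → (∀ v, v + 1 < b.n → x + 1 ≠ zp b (v + 1)) →
    p x + p (x + 1) + c (x + 1) = 2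
  five : ∀ v, v + 2 < b.n →
    p (9 * v + 13) + p (9 * v + 14) + c (9 * v + 14) + c (9 * v + 2) + c (9 * v + 8) = 2
  last : ∀ v, v + 2 = b.n →
    p (fB b + v + 1) + c (fB b + b.n) + c (9 * v + 2) + c (9 * v + 8) = 1
  sy : ∀ x < fM b, cd b (cd b x) = x → c (cd b x) = c x

theorem cnt_of (h : b.Valid) (c : GC (2 * fM b) (A b) U) (p : Cp b o o') :
    Cnt b (fun x => ind U (o + x) (o + x + 1)) (fun x => ind U (o + x) (o + cd b x)) := by
  have e := fB_eq b
  have e' := fM_eq b
  have n2 := two_le h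
  have p' : Cp b o' o := by unfold Cp at *; omega
  have pp := p
  unfold Cp at pp
  have k5 : ∀ v, v + 1 < b.n → ind U (o + zp b (v + 1)) (pv b o o' (zp b (v + 1))) +
      ind U (o + zp b (v + 1)) (nx b o o' (zp b (v + 1))) +
      ind U (o + zp b (v + 1)) (o + cd b (zp b (v + 1))) +
      ind U (o + (9 * v + 2)) (o + cd b (9 * v + 2)) +
      ind U (o + (9 * v + 8)) (o + cd b (9 * v + 8)) = 2 := fun v hv => by
    have a1 := zp_spec b (v + 1)
    have := c.five (x := o + zp b (v + 1)) (by omega) _ (nbr5 h p hv).1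
      fun y => ((nbr5 h p hv).2 y).1
    obtain ⟨-, -, c2, -, -, -, -, -, c8⟩ := cd_cell hv
    simp only [List.map_cons, List.map_nil, List.sum_cons, List.sum_nil] at this
    rw [c2, c8, c.ind_comm (o + (9 * v + 2)), c.ind_comm (o + (9 * v + 8))]
    omega
  refine ⟨fun _ => ind_le _ _, fun _ => ind_le _ _, ?_, fun x hx nz => ?_, fun v hv => ?_,
    fun v hv => ?_, fun x hx a => ?_⟩
  · have nz : ∀ v, v + 1 < b.n → 0 ≠ zp b (v + 1) := fun v _ => by
      have := zp_spec b (v + 1); omega
    have := c.five (x := o + 0) (by omega) _ (nbr3 h p (by omega) nz).1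
      fun y => ((nbr3 h p (by omega) nz).2 y).1
    have a := ind_one.2 (c.symm _ _ (cut_used h c p'))
    simp only [List.map_cons, List.map_nil, List.sum_cons, List.sum_nil] at this
    rw [pv, if_pos rfl, nx, if_neg (by omega), show o' + fM b - 1 = o' + (fM b - 1) by omega,
      Nat.add_zero, a] at this
    simp only [Nat.add_zero]
    omega
  · have := c.five (x := o + (x + 1)) (by omega) _ (nbr3 h p (by omega) nz).1
      fun y => ((nbr3 h p (by omega) nz).2 y).1
    simp only [List.map_cons, List.map_nil, List.sum_cons, List.sum_nil] at this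
    rw [pv, if_neg (by omega), nx, if_neg (by omega), show o + (x + 1) - 1 = o + x by omega,
      c.ind_comm _ (o + x)] at this
    simp only [← Nat.add_assoc] at this ⊢
    omega
  · have := k5 v (by omega)
    rw [show zp b (v + 1) = 9 * v + 14 by have := zp_spec b (v + 1); omega, pv, if_neg (by omega),
      nx, if_neg (by omega), show o + (9 * v + 14) - 1 = o + (9 * v + 13) by omega,
      c.ind_comm _ (o + (9 * v + 13))] at this
    exact this
  · have := k5 v (by omega)
    have a := ind_one.2 (cut_used h c p)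
    rw [show zp b (v + 1) = fB b + b.n by have := zp_spec b (v + 1); omega, pv, if_neg (by omega),
      nx, if_pos (by omega), show o + (fB b + b.n) - 1 = o + (fB b + v + 1) by omega,
      c.ind_comm _ (o + (fB b + v + 1))] at this
    rw [show fM b - 1 = fB b + b.n by omega] at a
    rw [show o + (fB b + v + 1) + 1 = o + (fB b + b.n) by omega]
    omega
  · simp only [a]
    exact c.ind_comm _ _

variable {p c : ℕ → ℕ}

theorem Cnt.cell (_h : b.Valid) (k : Cnt b p c) {v : ℕ} (hv : v + 1 < b.n) :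
    p (9 * v) + p (9 * v + 1) + c (9 * v + 1) = 2 ∧
    p (9 * v + 1) + p (9 * v + 2) + c (9 * v + 2) = 2 ∧
    p (9 * v + 2) + p (9 * v + 3) + c (9 * v + 3) = 2 ∧
    p (9 * v + 3) + p (9 * v + 4) + c (9 * v + 1) = 2 ∧
    p (9 * v + 5) + p (9 * v + 6) + c (9 * v + 3) = 2 ∧
    p (9 * v + 6) + p (9 * v + 7) + c (9 * v) = 2 ∧
    p (9 * v + 7) + p (9 * v + 8) + c (9 * v + 8) = 2 ∧
    c (9 * v + 4) = c (9 * v + 1) ∧ c (9 * v + 6) = c (9 * v + 3) ∧ c (9 * v + 7) = c (9 * v) := by
  have e := fB_eq b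
  have e' := fM_eq b
  obtain ⟨c0, c1, c2, c3, c4, c5, c6, c7, c8⟩ := cd_cell hv
  have t : ∀ j < 8, j ≠ 4 → p (9 * v + j) + p (9 * v + j + 1) + c (9 * v + j + 1) = 2 :=
    fun j h1 h2 => k.three _ (by omega) fun u _ => by have := zp_spec b (u + 1); omega
  have s1 := k.sy (9 * v + 1) (by omega) (by rw [c1, c4])
  have s3 := k.sy (9 * v + 3) (by omega) (by rw [c3, c6])
  have s0 := k.sy (9 * v) (by omega) (by rw [c0, c7])
  rw [c1] at s1
  rw [c3] at s3
  rw [c0] at s0
  exact ⟨t 0 (by omega) (by omega), t 1 (by omega) (by omega), t 2 (by omega) (by omega),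
    s1 ▸ t 3 (by omega) (by omega), s3 ▸ t 5 (by omega) (by omega),
    s0 ▸ t 6 (by omega) (by omega), t 7 (by omega) (by omega), s1, s3, s0⟩

theorem Cnt.cell0 (h : b.Valid) (k : Cnt b p c) :
    p 4 + p 5 + c 5 = 2 ∧ c 2 + c 8 + p 8 = c 5 + 1 := by
  have n2 := two_le h
  have e := fB_eq b
  have e' := fM_eq b
  have a := k.cell h (v := 0) (by omega)
  have a0 := k.zero
  have a1 := k.three 4 (by omega) fun u _ => by have := zp_spec b (u + 1); omega
  simp only [Nat.mul_zero, Nat.zero_add, Nat.reduceAdd] at a a1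
  omega

theorem Cnt.cellS (h : b.Valid) (k : Cnt b p c) {v : ℕ} (hv : v + 2 < b.n) :
    p (9 * v + 8) + p (9 * (v + 1)) + c (9 * (v + 1)) = 2 ∧
    p (9 * (v + 1) + 4) + p (9 * (v + 1) + 5) + c (9 * (v + 1) + 5) + c (9 * v + 2) +
      c (9 * v + 8) = 2 ∧
    c (9 * (v + 1) + 2) + c (9 * (v + 1) + 8) + p (9 * (v + 1) + 8) + p (9 * v + 8) =
      c (9 * (v + 1) + 5) + c (9 * v + 2) + c (9 * v + 8) + 2 := by
  have e := fB_eq b
  have e' := fM_eq b
  have a := k.cell h (v := v + 1) (by omega)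
  have a0 : p (9 * v + 8) + p (9 * (v + 1)) + c (9 * (v + 1)) = 2 :=
    k.three (9 * v + 8) (by omega) fun u _ => by have := zp_spec b (u + 1); omega
  have a1 : p (9 * (v + 1) + 4) + p (9 * (v + 1) + 5) + c (9 * (v + 1) + 5) + c (9 * v + 2) +
      c (9 * v + 8) = 2 := k.five v hv
  omega

theorem Cnt.board (h : b.Valid) (k : Cnt b p c) {v : ℕ} (hv : v < b.n) :
    p (fB b + v - 1) + p (fB b + v) + c (fB b + v) = 2 ∧
      (b.kd v = 0 → c (fB b + v) = c (zp b v)) ∧
      (b.kd v ≠ 0 → c (fB b + b.ch v) = c (fB b + v) ∧ c (zp b (b.ch v)) = c (zp b v)) := by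
  have n2 := two_le h
  have e := fB_eq b
  have e' := fM_eq b
  have a := k.three (fB b + v - 1) (by omega) fun u _ => by have := zp_spec b (u + 1); omega
  rw [show fB b + v - 1 + 1 = fB b + v by omega] at a
  have a1 := zp_spec b v
  have s1 := k.sy (fB b + v) (by omega)
  have s2 := k.sy (zp b v) (by omega)
  rw [cd_board hv] at s1
  rw [cd_zp hv] at s2
  rcases t_spec h hv with ⟨z, c1, c2, c3⟩ | ⟨z, c1, c2, c3, c4, c5, c6, c7, c8⟩
  · rw [c2, cd_zp hv, c3] at s1
    exact ⟨a, fun _ => (s1 rfl).symm, fun y => absurd z y⟩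
  · rw [c5, cd_board c1, c7] at s1
    rw [c6, cd_zp c1, c8] at s2
    exact ⟨a, fun y => absurd y z, fun _ => ⟨s1 rfl, s2 rfl⟩⟩

theorem Cnt.main (h : b.Valid) (k : Cnt b p c) :
    (∀ v, v + 1 < b.n → p (9 * v + 8) = 1 ∧
      c (9 * v + 2) + c (9 * v + 8) = ∑ u ∈ Finset.range (v + 1), c (zp b u)) ∧
    ∑ u ∈ Finset.range b.n, c (zp b u) + p (fB b + b.n - 1) = 1 := by
  have n2 := two_le h
  have e := fB_eq b
  have hz : ∀ v, v + 1 < b.n → zp b v = 9 * v + 5 := fun v hv => by have := zp_spec b v; omega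
  have up : ∀ j v, v + 2 + j = b.n → c (9 * v + 2) + c (9 * v + 8) ≤ 1 := fun j => by
    induction j with
    | zero => intro v hv; have := k.last v hv; omega
    | succ j ih =>
      intro v hv
      have a1 := ih (v + 1) (by omega)
      have a2 := (k.cellS h (v := v) (by omega)).2.2
      have a3 := k.pl (9 * (v + 1) + 8)
      have a4 := k.pl (9 * v + 8)
      omega
  have lo : ∀ v, v + 1 < b.n → ∑ u ∈ Finset.range (v + 1), c (zp b u) + 1 ≤
      c (9 * v + 2) + c (9 * v + 8) + p (9 * v + 8) := fun v => by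
    induction v with
    | zero =>
      intro hv
      have := (k.cell0 h).2
      simp only [Nat.zero_add, Finset.sum_range_one, hz 0 hv, Nat.mul_zero]
      omega
    | succ v ih =>
      intro hv
      have a1 := ih (by omega)
      have a2 := (k.cellS h (v := v) (by omega)).2.2
      have a4 := k.pl (9 * v + 8)
      rw [Finset.sum_range_succ, hz _ hv]
      omega
  have one : ∀ v, v + 1 < b.n → p (9 * v + 8) = 1 := fun v hv => by
    have a1 := lo v hv
    have a4 := k.pl (9 * v + 8)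
    by_cases z : v + 2 = b.n
    · obtain ⟨b1, b2, -⟩ := k.board h h.pos
      have b3 := b2 h.k0
      have b4 := up 0 v z
      have b5 := k.pl (fB b + 0)
      have b6 := Finset.single_le_sum (f := fun u => c (zp b u)) (s := Finset.range (v + 1))
        (fun _ _ => Nat.zero_le _) (Finset.mem_range.2 (Nat.succ_pos v))
      rw [show fB b + 0 - 1 = 9 * v + 8 by omega] at b1
      omega
    · have a2 := (k.cellS h (v := v) (by omega)).2.2
      have a3 := k.pl (9 * (v + 1) + 8)
      have a5 := up (b.n - (v + 1 + 2)) (v + 1) (by omega)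
      omega
  have eq : ∀ v, v + 1 < b.n →
      c (9 * v + 2) + c (9 * v + 8) = ∑ u ∈ Finset.range (v + 1), c (zp b u) := fun v => by
    induction v with
    | zero =>
      intro hv
      have := (k.cell0 h).2
      have := one 0 hv
      simp only [Nat.zero_add, Finset.sum_range_one, hz 0 hv, Nat.mul_zero] at *
      omega
    | succ v ih =>
      intro hv
      have a1 := ih (by omega)
      have a2 := (k.cellS h (v := v) (by omega)).2.2
      have a3 := one v (by omega)
      have a4 := one _ hv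
      rw [Finset.sum_range_succ, hz _ hv]
      omega
  refine ⟨fun v hv => ⟨one v hv, eq v hv⟩, ?_⟩
  obtain ⟨v, hv⟩ : ∃ v, v + 2 = b.n := ⟨b.n - 2, by omega⟩
  have a1 := k.last v hv
  have a2 := eq v (by omega)
  have a3 : zp b (v + 1) = fB b + b.n := by have := zp_spec b (v + 1); omega
  rw [show fB b + b.n - 1 = fB b + v + 1 by omega]
  rw [← a3] at a1
  rw [← hv, Finset.sum_range_succ]
  omega

theorem Cnt.exit (h : b.Valid) (k : Cnt b p c) :
    ∃ q < b.n, (q = b.n - 1 ∨ b.kd q = 0) ∧ (p (fB b + b.n - 1) = 0 ↔ q ≠ b.n - 1) ∧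
      ∀ v < b.n, b.kd v = 0 → (c (fB b + v) = 1 ↔ v = q) := by
  have n2 := two_le h
  have hl := h.kl
  have a := (k.main h).2
  have two : ∀ u < b.n, ∀ v < b.n, u ≠ v → c (zp b u) + c (zp b v) ≤
      ∑ u ∈ Finset.range b.n, c (zp b u) := fun u hu v hv ne => by
    rw [← Finset.sum_pair (f := fun u => c (zp b u)) ne]
    exact Finset.sum_le_sum_of_subset fun w hw => by
      simp only [Finset.mem_insert, Finset.mem_singleton] at hw
      exact Finset.mem_range.2 (by omega)
  by_cases z : p (fB b + b.n - 1) = 0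
  · obtain ⟨q, h1, h2⟩ : ∃ q < b.n, c (zp b q) ≠ 0 := by
      by_contra hc
      push Not at hc
      rw [Finset.sum_eq_zero fun u hu => hc u (Finset.mem_range.1 hu)] at a
      omega
    have h3 : b.kd q = 0 := by
      by_contra y
      have a1 := ((k.board h h1).2.2 y).2
      rcases t_spec h h1 with ⟨z, -⟩ | ⟨-, c1, c2, -⟩
      · exact y z
      · have := two _ c1 _ h1 c2
        omega
    have h4 : q ≠ b.n - 1 := fun y => by rw [y] at h3; omega
    refine ⟨q, h1, Or.inr h3, by tauto, fun v hv y => ?_⟩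
    rw [(k.board h hv).2.1 y]
    have := k.cl (zp b q)
    refine ⟨fun w => ?_, fun w => by rw [w]; omega⟩
    by_contra ne
    have := two v hv q h1 ne
    omega
  · refine ⟨b.n - 1, by omega, Or.inl rfl, by tauto, fun v hv y => ?_⟩
    rw [(k.board h hv).2.1 y]
    have ne : v ≠ b.n - 1 := fun w => by rw [w] at y; omega
    have := two v hv _ (by omega) ne
    omega

end Pool.Agent.Lib.MP_33ce69_lc.Odd.Five
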