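import Pool.Agent.Lib.MP_33ce69_lc.Odd.Graph

/-!
Graphs on `Fin m` that contain the cycle `0, 1, ..., m-1`, and counting of used edges.
-/

namespace Pool.Agent.Lib.MP_33ce69_lc.Odd.Five

set_option maxHeartbeats 400000

open SimpleGraph

/-- what we use of a Hamiltonian cycle -/
structure GC (m : ℕ) (A U : ℕ → ℕ → Prop) : Prop where
  symm : ∀ x y, U x y → U y x
  sub : ∀ x y, U x y → A x y
  two : ∀ x < m, ∃ a c, a ≠ c ∧ ∀ y, U x y ↔ y = a ∨ y = c
  cut : ∀ X : ℕ → Prop, (∃ x < m, X x) → (∃ y < m, ¬ X y) →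
    ∃ x y x' y', X x ∧ ¬ X y ∧ U x y ∧ X x' ∧ ¬ X y' ∧ U x' y' ∧ ¬ (x = x' ∧ y = y')

variable {m : ℕ} {G : SimpleGraph (Fin m)} {A U : ℕ → ℕ → Prop}

theorem gc_of (hA : ∀ x y : Fin m, G.Adj x y ↔ A x y) {w : Fin m} {D : G.Walk w w}
    (hD : D.IsHamiltonianCycle) {E : List (ℕ × ℕ)} (hE : Lists E D.edgeSet) :
    GC m A fun x y => (x, y) ∈ E ∨ (y, x) ∈ E := by
  have e : ∀ x y : Fin m, s(x, y) ∈ D.edges ↔
      (x.val, y.val) ∈ E ∨ (y.val, x.val) ∈ E := fun x y => by rw [← hE.2, Walk.mem_edgeSet]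
  have l : ∀ x y, (x, y) ∈ E ∨ (y, x) ∈ E → x < m ∧ y < m := by
    rintro x y (a | a)
    · exact hE.1 _ a
    · exact (hE.1 _ a).symm
  refine ⟨fun x y a => a.symm, fun x y a => ?_, fun x hx => ?_, fun X ⟨x, hx, x1⟩ ⟨y, hy, y1⟩ => ?_⟩
  · exact (hA ⟨x, (l x y a).1⟩ ⟨y, (l x y a).2⟩).1
      (D.adj_of_mem_edges ((e ⟨x, (l x y a).1⟩ ⟨y, (l x y a).2⟩).2 a))
  · obtain ⟨a, c, h1, h2⟩ := ham_two hD ⟨x, hx⟩
    refine ⟨a, c, fun z => h1 (Fin.ext z), fun y => ⟨fun z => ?_, fun z => ?_⟩⟩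
    · have := (h2 ⟨y, (l x y z).2⟩).1 ((e _ _).2 z)
      simpa only [Fin.ext_iff] using this
    · rcases z with rfl | rfl
      · exact (e _ _).1 ((h2 a).2 (Or.inl rfl))
      · exact (e _ _).1 ((h2 c).2 (Or.inr rfl))
  · obtain ⟨a, c, a', c', h1, h2, h3, h4, h5, h6, h7⟩ :=
      ham_cut hD {z | X z.val} (a := ⟨x, hx⟩) (c := ⟨y, hy⟩) x1 y1
    exact ⟨a, c, a', c', h1, h2, (e _ _).1 h3, h4, h5, (e _ _).1 h6,
      fun z => h7 ⟨Fin.ext z.1, Fin.ext z.2⟩⟩

theorem g_path (hA : ∀ x y : Fin m, G.Adj x y ↔ A x y) (hs : ∀ x, x + 1 < m → A x (x + 1))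
    (k : ℕ) (hk : k < m) :
    ∃ p : G.Walk ⟨0, by omega⟩ ⟨k, hk⟩, p.support.map Fin.val = List.range (k + 1) ∧
      ∀ x y, s(x, y) ∈ p.edges ↔ (y.val = x.val + 1 ∧ y.val ≤ k) ∨
        (x.val = y.val + 1 ∧ x.val ≤ k) := by
  induction k with
  | zero => exact ⟨Walk.nil, by simp, fun x y => by
      simp only [Walk.edges_nil, List.not_mem_nil, false_iff]
      omega⟩
  | succ k ih =>
    obtain ⟨p, h1, h2⟩ := ih (by omega)
    refine ⟨p.concat ((hA _ _).2 (hs k hk)), ?_, fun x y => ?_⟩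
    · rw [Walk.support_concat, List.range_succ (n := k + 1), ← h1]
      simp
    · rw [Walk.edges_concat, List.concat_eq_append, List.mem_append, h2, List.mem_singleton,
        Sym2.eq_iff]
      simp only [Fin.ext_iff]
      omega

theorem g_home (hm : 3 ≤ m) (hA : ∀ x y : Fin m, G.Adj x y ↔ A x y)
    (hs : ∀ x, x + 1 < m → A x (x + 1)) (hl : A (m - 1) 0) :
    ∃ (v : Fin m) (C : G.Walk v v),
      C.support.map Fin.val = (m - 1) :: List.range m ∧ C.IsHamiltonianCycle ∧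
      ∀ x y, s(x, y) ∈ C.edges ↔ y.val = x.val + 1 ∨ x.val = y.val + 1 ∨
        (x.val = m - 1 ∧ y.val = 0) ∨ (y.val = m - 1 ∧ x.val = 0) := by
  obtain ⟨p, h1, h2⟩ := g_path hA hs (m - 1) (by omega)
  have ha : G.Adj ⟨m - 1, by omega⟩ ⟨0, by omega⟩ := (hA _ _).2 hl
  rw [show m - 1 + 1 = m by omega] at h1
  refine ⟨_, Walk.cons ha p, by rw [Walk.support_cons, List.map_cons, h1], ?_, fun x y => ?_⟩
  · rw [Walk.isHamiltonianCycle_iff_isCycle_and_length_eq, Walk.cons_isCycle_iff]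
    refine ⟨⟨Walk.IsPath.mk' (List.Nodup.of_map Fin.val (h1 ▸ List.nodup_range)), ?_⟩, ?_⟩
    · rw [h2]
      simp only
      omega
    · have := congrArg List.length h1
      simp only [List.length_map, Walk.length_support, List.length_range] at this
      rw [Walk.length_cons, Fintype.card_fin]
      omega
  · rw [Walk.edges_cons, List.mem_cons, h2, Sym2.eq_iff]
    simp only [Fin.ext_iff]
    have := x.2
    have := y.2
    omega

theorem g_deg (hA : ∀ x y : Fin m, G.Adj x y ↔ A x y) (hl : ∀ x y, A x y → y < m) (x : Fin m) :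
    (G.neighborSet x).ncard = {y | A x y}.ncard := by
  rw [← Set.ncard_image_of_injective _ Fin.val_injective]
  congr 1
  ext y
  simp only [Set.mem_image, mem_neighborSet, hA, Set.mem_ofPred_eq]
  exact ⟨fun ⟨z, h1, h2⟩ => h2 ▸ h1, fun a => ⟨⟨y, hl _ _ a⟩, a, rfl⟩⟩

open Classical in
/-- `1` for a used edge -/
noncomputable def ind (U : ℕ → ℕ → Prop) (x y : ℕ) : ℕ := if U x y then 1 else 0

theorem ind_le (x y : ℕ) : ind U x y ≤ 1 := by unfold ind; split_ifs <;> omega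

theorem ind_one {x y : ℕ} : ind U x y = 1 ↔ U x y := by unfold ind; split_ifs <;> simp_all

theorem GC.ind_comm (c : GC m A U) (x y : ℕ) : ind U x y = ind U y x := by
  have : U x y ↔ U y x := ⟨c.symm x y, c.symm y x⟩
  unfold ind
  rw [this]

theorem GC.five (c : GC m A U) {x : ℕ} (hx : x < m) (l : List ℕ) (hl : l.Nodup)
    (h : ∀ y, A x y → y ∈ l) : (l.map (ind U x)).sum = 2 := by
  classical
  obtain ⟨a, d, h1, h2⟩ := c.two x hx
  have a1 := h a (c.sub _ _ ((h2 a).2 (Or.inl rfl)))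
  have a2 := h d (c.sub _ _ ((h2 d).2 (Or.inr rfl)))
  rw [← List.sum_toFinset _ hl]
  have : ∀ y, ind U x y = (if y = a then 1 else 0) + if y = d then 1 else 0 := fun y => by
    unfold ind
    rw [h2]
    split_ifs <;> omega
  simp only [this, Finset.sum_add_distrib, Finset.sum_ite_eq', List.mem_toFinset, a1, a2, if_true]

end Pool.Agent.Lib.MP_33ce69_lc.Odd.Five
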