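import Pool.Agent.Lib.MP_33ce69_lc.Five.Gen

/-!
The graph of a board with all degrees 3 or 5.  A copy is a row of cells of nine vertices, the
board and a last vertex.  In cell `v` the vertices are, along the path, `r3 t1 q t2 r1 z r2 t3 p`.
-/

namespace Pool.Agent.Lib.MP_33ce69_lc.Odd.Five

set_option maxHeartbeats 400000

open SimpleGraph Board

variable (b : Board)

def fB : ℕ := 9 * (b.n - 1)
def fM : ℕ := fB b + b.n + 1
def zp (v : ℕ) : ℕ := if v + 1 = b.n then fB b + b.n else 9 * v + 5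
def t1 (v : ℕ) : ℕ := if b.kd v = 0 then zp b v else fB b + b.ch v
def t2 (v : ℕ) : ℕ := if b.kd v = 0 then fB b + v else zp b (b.ch v)
def cd (x : ℕ) : ℕ :=
  if x < fB b then
    (if x % 9 = 0 then x + 7 else if x % 9 = 1 ∨ x % 9 = 3 then x + 3
      else if x % 9 = 4 ∨ x % 9 = 6 then x - 3 else if x % 9 = 7 then x - 7
      else if x % 9 = 5 then t2 b (x / 9) else zp b (x / 9 + 1))
  else if x < fB b + b.n then t1 b (x - fB b) else t2 b (b.n - 1)

def edges : List (ℕ × ℕ) :=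
  (List.range (fM b)).flatMap fun x => [(x, x + 1), (x, cd b x),
    (fM b + x, if x + 1 = fM b then 0 else fM b + x + 1), (fM b + x, fM b + cd b x)]

def Rel (x y : ℕ) : Prop :=
  ∃ u < fM b, (x = u ∧ (y = u + 1 ∨ y = cd b u)) ∨
    (x = fM b + u ∧ ((u + 1 = fM b ∧ y = 0) ∨ (u + 1 ≠ fM b ∧ y = fM b + u + 1) ∨
      y = fM b + cd b u))

def A (x y : ℕ) : Prop := Rel b x y ∨ Rel b y x

def graph : SimpleGraph (Fin (2 * fM b)) := SimpleGraph.fromRel fun x y => Rel b x y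

def Cp (o o' : ℕ) : Prop := (o = 0 ∧ o' = fM b) ∨ (o = fM b ∧ o' = 0)

def pv (o o' x : ℕ) : ℕ := if x = 0 then o' + fM b - 1 else o + x - 1
def nx (o o' x : ℕ) : ℕ := if x + 1 = fM b then o' else o + x + 1

theorem mem_edges (x y : ℕ) : (x, y) ∈ edges b ↔ Rel b x y := by
  simp only [edges, Rel, List.mem_flatMap, List.mem_range, List.mem_cons,
    Prod.mk.injEq, List.not_mem_nil, or_false]
  refine exists_congr fun v => and_congr Iff.rfl ?_
  split_ifs <;> omega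

theorem zp_spec (v : ℕ) : (v + 1 = b.n ∧ zp b v = fB b + b.n) ∨
    (v + 1 ≠ b.n ∧ zp b v = 9 * v + 5) := by
  unfold zp
  split_ifs <;> omega

theorem fB_eq : fB b = 9 * (b.n - 1) := rfl
theorem fM_eq : fM b = fB b + b.n + 1 := rfl

variable {b}

theorem two_le (h : b.Valid) : 2 ≤ b.n := by
  have := h.nxt h.pos (by rw [h.k0]; omega)
  omega

theorem t_spec (h : b.Valid) {v : ℕ} (hv : v < b.n) :
    (b.kd v = 0 ∧ v + 1 < b.n ∧ t1 b v = zp b v ∧ t2 b v = fB b + v) ∨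
    (b.kd v ≠ 0 ∧ b.ch v < b.n ∧ b.ch v ≠ v ∧ b.ch v ≠ v + 1 ∧ v ≠ b.ch v + 1 ∧
      t1 b v = fB b + b.ch v ∧ t2 b v = zp b (b.ch v) ∧ t1 b (b.ch v) = fB b + v ∧
      t2 b (b.ch v) = zp b v) := by
  by_cases k : b.kd v = 0
  · exact Or.inl ⟨k, h.nxt hv (by omega), if_pos k, if_pos k⟩
  · obtain ⟨c1, c2, c3, c4, c5⟩ := h.chord v hv k
    have k' : b.kd (b.ch v) ≠ 0 := by unfold okc at c5; omega
    have : b.ch v ≠ v := fun e => by rw [e] at c5; unfold okc at c5; omega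
    refine Or.inr ⟨k, c1, this, c3, c4, if_neg k, if_neg k, ?_, ?_⟩
    · rw [t1, if_neg k', c2]
    · rw [t2, if_neg k', c2]

theorem cd_cell {v : ℕ} (hv : v + 1 < b.n) :
    cd b (9 * v) = 9 * v + 7 ∧ cd b (9 * v + 1) = 9 * v + 4 ∧ cd b (9 * v + 2) = zp b (v + 1) ∧
    cd b (9 * v + 3) = 9 * v + 6 ∧ cd b (9 * v + 4) = 9 * v + 1 ∧ cd b (9 * v + 5) = t2 b v ∧
    cd b (9 * v + 6) = 9 * v + 3 ∧ cd b (9 * v + 7) = 9 * v ∧ cd b (9 * v + 8) = zp b (v + 1) := by
  have e := fB_eq b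
  have d : ∀ j < 9, (9 * v + j) / 9 = v := fun j hj => by omega
  unfold cd
  refine ⟨?_, ?_, ?_, ?_, ?_, ?_, ?_, ?_, ?_⟩
  · split_ifs <;> omega
  · split_ifs <;> omega
  · rw [d 2 (by omega)]; split_ifs <;> omega
  · split_ifs <;> omega
  · split_ifs <;> omega
  · rw [d 5 (by omega)]; split_ifs <;> omega
  · split_ifs <;> omega
  · split_ifs <;> omega
  · rw [d 8 (by omega)]; split_ifs <;> omega

theorem cd_board {v : ℕ} (hv : v < b.n) : cd b (fB b + v) = t1 b v := by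
  unfold cd
  rw [if_neg (by omega), if_pos (by omega), Nat.add_sub_cancel_left]

theorem cd_zp {v : ℕ} (hv : v < b.n) : cd b (zp b v) = t2 b v := by
  rcases zp_spec b v with ⟨a, e⟩ | ⟨a, e⟩ <;> rw [e]
  · unfold cd
    rw [if_neg (by omega), if_neg (by omega), show b.n - 1 = v by omega]
  · exact (cd_cell (by omega)).2.2.2.2.2.1

theorem cd_spec (h : b.Valid) {x : ℕ} (hx : x < fM b) :
    cd b x < fM b ∧ cd b x ≠ x ∧ cd b x ≠ x + 1 ∧ x ≠ cd b x + 1 ∧ (cd b (cd b x) = x ∨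
      ∃ v, v + 1 < b.n ∧ cd b x = zp b (v + 1) ∧ (x = 9 * v + 2 ∨ x = 9 * v + 8)) := by
  have e := fB_eq b
  have e' := fM_eq b
  have n2 := two_le h
  have hz : ∀ v < b.n, cd b (zp b v) < fM b ∧ cd b (zp b v) ≠ zp b v ∧
      cd b (zp b v) ≠ zp b v + 1 ∧ zp b v ≠ cd b (zp b v) + 1 ∧ cd b (cd b (zp b v)) = zp b v :=
    fun v hv => by
    have a1 := zp_spec b v
    have a2 := zp_spec b (b.ch v)
    rw [cd_zp hv]
    rcases t_spec h hv with ⟨k, c1, c2, c3⟩ | ⟨k, c1, c2, c3, c4, c5, c6, c7, c8⟩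
    · rw [c3, cd_board hv]
      omega
    · rw [c6, cd_zp c1]
      omega
  by_cases h1 : x < fB b
  · obtain ⟨v, hv, a⟩ : ∃ v, v + 1 < b.n ∧ (x = 9 * v ∨ x = 9 * v + 1 ∨ x = 9 * v + 2 ∨
        x = 9 * v + 3 ∨ x = 9 * v + 4 ∨ x = 9 * v + 5 ∨ x = 9 * v + 6 ∨ x = 9 * v + 7 ∨
        x = 9 * v + 8) := ⟨x / 9, by omega, by omega⟩
    obtain ⟨c0, c1, c2, c3, c4, c5, c6, c7, c8⟩ := cd_cell hv
    have a1 := zp_spec b (v + 1)
    rcases a with rfl | rfl | rfl | rfl | rfl | rfl | rfl | rfl | rfl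
    · rw [c0, c7]; omega
    · rw [c1, c4]; omega
    · exact ⟨by omega, by omega, by omega, by omega, Or.inr ⟨v, hv, c2, Or.inl rfl⟩⟩
    · rw [c3, c6]; omega
    · rw [c4, c1]; omega
    · have a2 := hz v (by omega)
      rw [show zp b v = 9 * v + 5 by have := zp_spec b v; omega] at a2
      omega
    · rw [c6, c3]; omega
    · rw [c7, c0]; omega
    · exact ⟨by omega, by omega, by omega, by omega, Or.inr ⟨v, hv, c8, Or.inr rfl⟩⟩
  · by_cases h2 : x < fB b + b.n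
    · obtain ⟨v, rfl⟩ := Nat.exists_eq_add_of_le (not_lt.1 h1)
      have hv : v < b.n := by omega
      have a1 := zp_spec b v
      rw [cd_board hv]
      rcases t_spec h hv with ⟨k, c1, c2, c3⟩ | ⟨k, c1, c2, c3, c4, c5, c6, c7, c8⟩
      · rw [c2, cd_zp hv]
        omega
      · rw [c5, cd_board c1]
        omega
    · have a2 := hz (b.n - 1) (by omega)
      rw [show zp b (b.n - 1) = x by have := zp_spec b (b.n - 1); omega] at a2
      omega

theorem rel_lt (h : b.Valid) {x y : ℕ} (r : Rel b x y) :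
    x < 2 * fM b ∧ y < 2 * fM b ∧ x ≠ y := by
  obtain ⟨v, hv, r⟩ := r
  obtain ⟨a1, a2, -⟩ := cd_spec h hv
  omega

theorem adj_iff (h : b.Valid) (x y : Fin (2 * fM b)) : (graph b).Adj x y ↔ A b x y := by
  rw [graph, fromRel_adj]
  refine ⟨fun a => a.2, fun a => ⟨fun e => ?_, a⟩⟩
  rcases a with a | a <;> exact (rel_lt h a).2.2 (by rw [e])

theorem lists (h : b.Valid) : Lists (edges b) (graph b).edgeSet :=
  ⟨fun p hp => ⟨(rel_lt h ((mem_edges b p.1 p.2).1 hp)).1,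
      (rel_lt h ((mem_edges b p.1 p.2).1 hp)).2.1⟩,
    fun x y => by rw [mem_edgeSet, adj_iff h, mem_edges, mem_edges, A]⟩

theorem nbr (h : b.Valid) {o o' : ℕ} (c : Cp b o o') {x : ℕ} (hx : x < fM b) (y : ℕ) :
    A b (o + x) y ↔ y = pv b o o' x ∨ y = nx b o o' x ∨ y = o + cd b x ∨
      ∃ v, v + 1 < b.n ∧ x = zp b (v + 1) ∧ (y = o + (9 * v + 2) ∨ y = o + (9 * v + 8)) := by
  have t := (cd_spec h hx).1
  have e := fB_eq b
  have e' := fM_eq b
  unfold Cp at c
  constructor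
  · rintro (⟨u, hu, r⟩ | ⟨u, hu, r⟩)
    · have e : u = x := by omega
      subst e
      have : y = nx b o o' u ∨ y = o + cd b u := by
        unfold nx
        split_ifs <;> omega
      tauto
    · obtain ⟨a1, a2, a3, a4, a5⟩ := cd_spec h hu
      by_cases z : cd b u = x ∧ y = o + u
      · rcases a5 with a5 | ⟨v, b1, b2, b3⟩
        · rw [z.1] at a5
          omega
        · exact Or.inr (Or.inr (Or.inr ⟨v, b1, by omega, by omega⟩))
      · left
        clear a5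
        unfold pv
        split_ifs <;> omega
  · rintro (r | r | r | ⟨v, b1, b2, b3⟩)
    · unfold pv at r
      split_ifs at r with z
      · exact Or.inr ⟨fM b - 1, by omega, by omega⟩
      · exact Or.inr ⟨x - 1, by omega, by omega⟩
    · unfold nx at r
      exact Or.inl ⟨x, hx, by split_ifs at r <;> omega⟩
    · exact Or.inl ⟨x, hx, by omega⟩
    · obtain ⟨-, -, c2, -, -, -, -, -, c8⟩ := cd_cell b1
      rcases b3 with b3 | b3
      · exact Or.inr ⟨9 * v + 2, by omega, by omega⟩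
      · exact Or.inr ⟨9 * v + 8, by omega, by omega⟩

theorem nbr3 (h : b.Valid) {o o' : ℕ} (c : Cp b o o') {x : ℕ} (hx : x < fM b)
    (nz : ∀ v, v + 1 < b.n → x ≠ zp b (v + 1)) :
    [pv b o o' x, nx b o o' x, o + cd b x].Nodup ∧
      ∀ y, A b (o + x) y ↔ y ∈ [pv b o o' x, nx b o o' x, o + cd b x] := by
  obtain ⟨t1, t2, t3, t4, -⟩ := cd_spec h hx
  have e := fB_eq b
  have e' := fM_eq b
  have n2 := two_le h
  refine ⟨?_, fun y => ?_⟩
  · unfold Cp at c
    simp only [List.nodup_cons, List.mem_cons, List.not_mem_nil, or_false, not_or, pv, nx,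
      not_false_eq_true, List.nodup_nil, and_true]
    split_ifs <;> omega
  · rw [nbr h c hx]
    simp only [List.mem_cons, List.not_mem_nil, or_false]
    exact or_congr Iff.rfl (or_congr Iff.rfl (or_iff_left fun ⟨v, a1, a2, _⟩ => nz v a1 a2))

theorem nbr5 (h : b.Valid) {o o' : ℕ} (c : Cp b o o') {v : ℕ} (hv : v + 1 < b.n) :
    [pv b o o' (zp b (v + 1)), nx b o o' (zp b (v + 1)), o + cd b (zp b (v + 1)),
      o + (9 * v + 2), o + (9 * v + 8)].Nodup ∧
      ∀ y, A b (o + zp b (v + 1)) y ↔ y ∈ [pv b o o' (zp b (v + 1)), nx b o o' (zp b (v + 1)),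
        o + cd b (zp b (v + 1)), o + (9 * v + 2), o + (9 * v + 8)] := by
  have e := fB_eq b
  have e' := fM_eq b
  have a1 := zp_spec b (v + 1)
  have hx : zp b (v + 1) < fM b := by omega
  obtain ⟨t1, t2, t3, t4, -⟩ := cd_spec h hx
  refine ⟨?_, fun y => ?_⟩
  · have a2 := zp_spec b (b.ch (v + 1))
    have a3 := t_spec h hv
    rw [← cd_zp hv] at a3
    unfold Cp at c
    simp only [List.nodup_cons, List.mem_cons, List.not_mem_nil, or_false, not_or, pv, nx,
      not_false_eq_true, List.nodup_nil, and_true]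
    split_ifs <;> omega
  · rw [nbr h c hx]
    simp only [List.mem_cons, List.not_mem_nil, or_false]
    refine or_congr Iff.rfl (or_congr Iff.rfl (or_congr Iff.rfl ⟨?_, fun a => ⟨v, hv, rfl, a⟩⟩))
    rintro ⟨u, b1, b2, b3⟩
    have a2 := zp_spec b (u + 1)
    omega

theorem split (x : ℕ) (hx : x < 2 * fM b) : ∃ o o' u, Cp b o o' ∧ u < fM b ∧ x = o + u := by
  by_cases e : x < fM b
  · exact ⟨0, _, x, Or.inl ⟨rfl, rfl⟩, e, by omega⟩
  · exact ⟨_, 0, x - fM b, Or.inr ⟨rfl, rfl⟩, by omega, by omega⟩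

theorem degrees (h : b.Valid) (x : Fin (2 * fM b)) :
    ((graph b).neighborSet x).ncard = 3 ∨ ((graph b).neighborSet x).ncard = 5 := by
  rw [g_deg (adj_iff h) fun x y a => a.elim (fun a => (rel_lt h a).2.1) fun a => (rel_lt h a).1]
  obtain ⟨o, o', u, c, hu, e⟩ := split x.1 x.2
  have k : ∀ l : List ℕ, l.Nodup → (∀ y, A b (o + u) y ↔ y ∈ l) →
      {y | A b x y}.ncard = l.length := fun l h1 h2 => by
    rw [e, show {y | A b (o + u) y} = ↑l.toFinset by ext y; simp [h2], Set.ncard_coe_finset,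
      List.toFinset_card_of_nodup h1]
  by_cases nz : ∀ v, v + 1 < b.n → u ≠ zp b (v + 1)
  · exact Or.inl (k _ (nbr3 h c hu nz).1 (nbr3 h c hu nz).2)
  · push Not at nz
    obtain ⟨v, hv, rfl⟩ := nz
    exact Or.inr (k _ (nbr5 h c hv).1 (nbr5 h c hv).2)

theorem exists_home (h : b.Valid) :
    ∃ (v : Fin (2 * fM b)) (C : (graph b).Walk v v),
      C.support.map Fin.val = (2 * fM b - 1) :: List.range (2 * fM b) ∧ C.IsHamiltonianCycle ∧
      ∀ x y, s(x, y) ∈ C.edges ↔ y.val = x.val + 1 ∨ x.val = y.val + 1 ∨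
        (x.val = 2 * fM b - 1 ∧ y.val = 0) ∨ (y.val = 2 * fM b - 1 ∧ x.val = 0) := by
  have e' := fM_eq b
  have n2 := two_le h
  refine g_home (by omega) (adj_iff h) (fun x hx => ?_) (Or.inl ⟨fM b - 1, by omega, by omega⟩)
  by_cases e : x < fM b
  · exact Or.inl ⟨x, e, by omega⟩
  · exact Or.inl ⟨x - fM b, by omega, by omega⟩

end Pool.Agent.Lib.MP_33ce69_lc.Odd.Five
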