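import Pool.Agent.Lib.MP_33ce69_lc.Five.State
import Pool.Agent.Lib.MP_33ce69_lc.Odd.Red

/-!
The reduction to graphs with all degrees 3 or 5.
-/

namespace Pool.Agent.Lib.MP_33ce69_lc.Odd.Five

set_option maxHeartbeats 400000

open Board SimpleGraph Pool.Agent.Lib.Complexity

def bB (n : ℕ) (gs : List Gate) : ℕ := fB (cBoard n gs)
def bM (n : ℕ) (gs : List Gate) : ℕ := fM (cBoard n gs)
def bZ (n : ℕ) (gs : List Gate) (v : ℕ) : ℕ := zp (cBoard n gs) v
def bT1 (n : ℕ) (gs : List Gate) (v : ℕ) : ℕ := t1 (cBoard n gs) v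
def bT2 (n : ℕ) (gs : List Gate) (v : ℕ) : ℕ := t2 (cBoard n gs) v
def bC (n : ℕ) (gs : List Gate) (v : ℕ) : ℕ := cd (cBoard n gs) v

def bD (n : ℕ) (gs : List Gate) (x : ℕ) : ℕ :=
  if x % 9 = 7 then x - 7 else if x % 9 = 5 then bT2 n gs (x / 9) else bZ n gs (x / 9 + 1)
def bD' (n : ℕ) (gs : List Gate) (x : ℕ) : ℕ :=
  if x % 9 = 0 then x + 7 else if x % 9 = 1 ∨ x % 9 = 3 then x + 3
    else if x % 9 = 4 ∨ x % 9 = 6 then x - 3 else bD n gs x

def offE (n : ℕ) (gs : List Gate) (E : List (ℕ × ℕ)) : ℕ :=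
  if valE n gs E (bB n gs) (P0 gs 0 1) = false ∧ valE n gs E (bB n gs) (P1 gs 0 1) = false then
    bM n gs + bB n gs else bB n gs

def solE (n : ℕ) (gs : List Gate) (E : List (ℕ × ℕ)) : List ℕ :=
  (List.range n).map fun y =>
    dec (valE n gs E (offE n gs E) (P0 gs y 0)) (valE n gs E (offE n gs E) (P1 gs y 0))

def cycL (n : ℕ) (gs : List Gate) : List ℕ := (2 * bM n gs - 1) :: List.range (2 * bM n gs)

theorem main {n : ℕ} {gs : List Gate} (h : PCValid n gs) :
    ∃ (m : ℕ) (G : SimpleGraph (Fin m)) (v : Fin m) (C : G.Walk v v),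
      Lists (edges (cBoard n gs)) G.edgeSet ∧ cycL n gs = C.support.map Fin.val ∧
      C.IsHamiltonianCycle ∧
      (∀ x, (G.neighborSet x).ncard = 3 ∨ (G.neighborSet x).ncard = 5) ∧ m = 2 * bM n gs ∧
      ∀ (w : Fin m) (D : G.Walk w w) (E : List (ℕ × ℕ)), D.IsHamiltonianCycle →
        D.edgeSet ≠ C.edgeSet → Lists E D.edgeSet → PCSolves n gs (solE n gs E) := by
  have F := facts h
  have hv : (cBoard n gs).Valid := grid_valid (net_grid (c_ok F))
  obtain ⟨v, C, c1, c2, c3⟩ := exists_home hv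
  refine ⟨_, _, v, C, lists hv, c1.symm, c2, degrees hv, rfl, fun w D E hD hne hE => ?_⟩
  have c := gc_of (adj_iff hv) hD hE
  have k : ∀ o o', Cp (cBoard n gs) o o' → NV n gs (valE n gs E (o + bB n gs)) ∧
      (Dead gs (valE n gs E (o + bB n gs)) 0 1 → ∀ x, x + 1 < fM (cBoard n gs) →
        ((o + x, o + x + 1) ∈ E ∨ (o + x + 1, o + x) ∈ E)) := fun o o' p => by
    obtain ⟨s1, s2⟩ := copy_sem hv c p
    have s : (cBoard n gs).Sem (tokE n gs E (o + bB n gs)) := by
      convert s1 using 2 with v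
      unfold tokE
      congr
    obtain ⟨t1, t2⟩ := c_sem F s
    exact ⟨t1, fun d => s2 fun v hv k => of_decide_eq_false (t2 d v hv k)⟩
  obtain ⟨a1, a2⟩ := k 0 _ (Or.inl ⟨rfl, rfl⟩)
  obtain ⟨b1, b2⟩ := k _ 0 (Or.inr ⟨rfl, rfl⟩)
  rw [Nat.zero_add] at a1 a2
  unfold solE offE
  split_ifs with z
  · refine solves h b1 fun z' => hne ?_
    ext e
    induction e using Sym2.ind with
    | h x y =>
      rw [hE.2, all_home hv c (a2 z) (b2 z') x y x.2 y.2, Walk.mem_edgeSet, c3]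
  · exact solves h a1 z

section
variable {α : Type} [Enc α] {gs : α → List Gate} {n a b : α → ℕ} {x : α → Tm}
  {E : α → List (ℕ × ℕ)}

@[fun_prop] theorem pt_bB (hn : PT n) (hg : PT gs) : PT fun z => bB (n z) (gs z) := by
  have : PT fun z => 9 * (bn (n z) (gs z) - 1) := by fun_prop
  exact this

@[fun_prop] theorem pt_bM (hn : PT n) (hg : PT gs) : PT fun z => bM (n z) (gs z) := by
  have : PT fun z => bB (n z) (gs z) + bn (n z) (gs z) + 1 := by fun_prop
  exact this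

@[fun_prop] theorem pt_bZ (hn : PT n) (hg : PT gs) (ha : PT a) :
    PT fun z => bZ (n z) (gs z) (a z) := by
  have : PT fun z => if a z + 1 = bn (n z) (gs z) then bB (n z) (gs z) + bn (n z) (gs z)
    else 9 * a z + 5 := by fun_prop
  exact this

@[fun_prop] theorem pt_bT1 (hn : PT n) (hg : PT gs) (ha : PT a) :
    PT fun z => bT1 (n z) (gs z) (a z) := by
  have : PT fun z => if bkd (n z) (gs z) (a z) = 0 then bZ (n z) (gs z) (a z)
    else bB (n z) (gs z) + bch (n z) (gs z) (a z) := by fun_prop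
  exact this

@[fun_prop] theorem pt_bT2 (hn : PT n) (hg : PT gs) (ha : PT a) :
    PT fun z => bT2 (n z) (gs z) (a z) := by
  have : PT fun z => if bkd (n z) (gs z) (a z) = 0 then bB (n z) (gs z) + a z
    else bZ (n z) (gs z) (bch (n z) (gs z) (a z)) := by fun_prop
  exact this

@[fun_prop] theorem pt_bD (hn : PT n) (hg : PT gs) (ha : PT a) :
    PT fun z => bD (n z) (gs z) (a z) := by
  unfold bD; fun_prop

@[fun_prop] theorem pt_bD' (hn : PT n) (hg : PT gs) (ha : PT a) :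
    PT fun z => bD' (n z) (gs z) (a z) := by
  unfold bD'; fun_prop

@[fun_prop] theorem pt_bC (hn : PT n) (hg : PT gs) (ha : PT a) :
    PT fun z => bC (n z) (gs z) (a z) := by
  have hB := pt_bB hn hg
  have hN := pt_bn' hn hg
  exact PT.ite (PT.dec_lt ha hB) (pt_bD' hn hg ha) (PT.ite (PT.dec_lt ha (hB.add hN))
    (pt_bT1 hn hg (ha.sub hB)) (pt_bT2 hn hg (hN.sub (PT.const 1))))

theorem pt_edges (hn : PT n) (hg : PT gs) : PT fun z => edges (cBoard (n z) (gs z)) := by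
  have : PT fun z => (List.range (bM (n z) (gs z))).flatMap fun v => [(v, v + 1),
      (v, bC (n z) (gs z) v),
      (bM (n z) (gs z) + v, if v + 1 = bM (n z) (gs z) then 0 else bM (n z) (gs z) + v + 1),
      (bM (n z) (gs z) + v, bM (n z) (gs z) + bC (n z) (gs z) v)] := by fun_prop
  exact this

@[fun_prop] theorem pt_cycL (hn : PT n) (hg : PT gs) : PT fun z => cycL (n z) (gs z) := by
  unfold cycL; fun_prop

@[fun_prop] theorem pt_offE (hn : PT n) (hg : PT gs) (hE : PT E) :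
    PT fun z => offE (n z) (gs z) (E z) := by
  unfold offE; fun_prop

@[fun_prop] theorem pt_solE (hn : PT n) (hg : PT gs) (hE : PT E) :
    PT fun z => solE (n z) (gs z) (E z) := by
  unfold solE; fun_prop

end

def fZ (x : ZI) : List (ℤ × ℤ) × List ℤ :=
  ((edges (cBoard (clN x) (clG x))).map fun p : ℕ × ℕ => ((p.1 : ℤ), (p.2 : ℤ)),
    (cycL (clN x) (clG x)).map fun a : ℕ => (a : ℤ))

def gZ (x : ZI × List (ℤ × ℤ)) : List ℤ :=
  (solE (clN x.1) (clG x.1) (clE (2 * bM (clN x.1) (clG x.1)) x.2)).map fun a : ℕ => (a : ℤ)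

theorem pt_fZ : PT fZ := by
  have h1 := pt_edges pt_clN pt_clG
  have h2 := pt_cycL pt_clN pt_clG
  exact PT.prodMk (PT.map (f := fun _ (p : ℕ × ℕ) => ((p.1 : ℤ), (p.2 : ℤ))) h1 (by fun_prop))
    (PT.map (f := fun _ (a : ℕ) => (a : ℤ)) h2 (by fun_prop))

theorem pt_gZ : PT gZ := by
  have h1 : PT fun x : ZI × List (ℤ × ℤ) => clN x.1 := pt_clN.comp (by fun_prop)
  have h2 : PT fun x : ZI × List (ℤ × ℤ) => clG x.1 := pt_clG.comp (by fun_prop)
  have h3 := pt_bM h1 h2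
  have h4 : ∀ m : ZI × List (ℤ × ℤ) → ℕ, PT m → PT fun x => clE (2 * m x) x.2 :=
    fun m hm => by unfold clE; fun_prop
  exact PT.map (f := fun _ (a : ℕ) => (a : ℤ)) (pt_solE h1 h2 (h4 _ h3)) (by fun_prop)

def fN (x : ℕ × List Gate) : List (ℕ × ℕ) × List ℕ := Rep.down (fZ (Rep.up x))
def gN (x : (ℕ × List Gate) × List (ℕ × ℕ)) : List ℕ := Rep.down (gZ (Rep.up x))

theorem fN_poly : N68a2faeb.IsPolyTime fN := isPolyTime_of_rep pt_fZ fun _ => rfl
theorem gN_poly : N68a2faeb.IsPolyTime gN := isPolyTime_of_rep pt_gZ fun _ => rfl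

variable {n : ℕ} {gs : List Gate}

theorem fN_eq (h : PCValid n gs) : fN (n, gs) = (edges (cBoard n gs), cycL n gs) := by
  simp [fN, fZ, (cl_up h).1, (cl_up h).2, Function.comp_def, -up_prod]

theorem gN_eq (h : PCValid n gs) {E : List (ℕ × ℕ)}
    (hE : ∀ p ∈ E, p.1 < 2 * bM n gs ∧ p.2 < 2 * bM n gs) :
    gN ((n, gs), E) = solE n gs E := by
  have e : clE (2 * bM n gs) (Rep.up E) = E := by
    simp only [clE, up_list, List.map_map]
    refine (List.map_congr_left fun p hp => ?_).trans (List.map_id _)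
    obtain ⟨a1, a2⟩ := hE p hp
    simp only [Function.comp, up_prod, up_nat, Int.toNat_natCast, id]
    rw [min_eq_left (by omega), min_eq_left (by omega)]
  have e' : gN ((n, gs), E) = Rep.down (gZ (Rep.up (n, gs), Rep.up E)) := rfl
  rw [e', gZ]
  simp only [(cl_up h).1, (cl_up h).2, e]
  simp [Function.comp_def]

theorem reduction (n : ℕ) (gs : List Gate) (h : PCValid n gs) :
    ∃ (m : ℕ) (G : SimpleGraph (Fin m)) (v : Fin m) (C : G.Walk v v),
      Lists (fN (n, gs)).1 G.edgeSet ∧ (fN (n, gs)).2 = C.support.map Fin.val ∧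
      C.IsHamiltonianCycle ∧
      (∀ x, (G.neighborSet x).ncard = 3 ∨ (G.neighborSet x).ncard = 5) ∧
      ∀ (w : Fin m) (D : G.Walk w w) (E : List (ℕ × ℕ)), D.IsHamiltonianCycle →
        D.edgeSet ≠ C.edgeSet → Lists E D.edgeSet → PCSolves n gs (gN ((n, gs), E)) := by
  obtain ⟨m, G, v, C, a1, a2, a3, a4, a6, a7⟩ := main h
  refine ⟨m, G, v, C, by rwa [fN_eq h], by rwa [fN_eq h], a3, a4, fun w D E x y z => ?_⟩
  rw [gN_eq h fun p hp => by have := z.1 p hp; rwa [a6] at this]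
  exact a7 w D E x y z

end Pool.Agent.Lib.MP_33ce69_lc.Odd.Five
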