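import Pool.Agent.Lib.MP_33ce69_lc.Five.Count

/-!
The state a Hamiltonian cycle leaves on the board of one copy.
-/

namespace Pool.Agent.Lib.MP_33ce69_lc.Odd.Five

set_option maxHeartbeats 400000

open Board

variable {b : Board} {U : ℕ → ℕ → Prop} {o o' : ℕ}

theorem used (h : b.Valid) (c : GC (2 * fM b) (A b) U) (p : Cp b o o') {x y : ℕ}
    (hx : x < fM b) (h0 : 0 < x) (h1 : x + 1 < fM b) (u : U (o + x) y) :
    (y = o + (x - 1) ∧ ind U (o + (x - 1)) (o + (x - 1) + 1) = 1) ∨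
    (y = o + (x + 1) ∧ ind U (o + x) (o + x + 1) = 1) ∨
    (y = o + cd b x ∧ ind U (o + x) (o + cd b x) = 1) ∨
    ∃ v, v + 1 < b.n ∧ x = zp b (v + 1) ∧ 1 ≤ ind U (o + (9 * v + 2)) (o + cd b (9 * v + 2)) +
      ind U (o + (9 * v + 8)) (o + cd b (9 * v + 8)) := by
  rcases (nbr h p hx y).1 (c.sub _ _ u) with a | a | a | ⟨v, a1, a2, a3⟩
  · rw [pv, if_neg (by omega), show o + x - 1 = o + (x - 1) by omega] at a
    refine Or.inl ⟨a, ?_⟩
    rw [show o + (x - 1) + 1 = o + x by omega, ← a]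
    exact ind_one.2 (c.symm _ _ u)
  · rw [nx, if_neg (by omega)] at a
    exact Or.inr (Or.inl ⟨a, ind_one.2 (a ▸ u)⟩)
  · exact Or.inr (Or.inr (Or.inl ⟨a, ind_one.2 (a ▸ u)⟩))
  · obtain ⟨-, -, c2, -, -, -, -, -, c8⟩ := cd_cell a1
    refine Or.inr (Or.inr (Or.inr ⟨v, a1, a2, ?_⟩))
    have := ind_one.2 (c.symm _ _ u)
    rw [c2, c8, ← a2]
    rcases a3 with rfl | rfl <;> omega

theorem nz_board {u r : ℕ} (hu : u < b.n) (hr : r + 1 < b.n) : fB b + u ≠ zp b (r + 1) := by
  have := zp_spec b (r + 1)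
  have := fB_eq b
  omega

theorem state_of (h : b.Valid) (c : GC (2 * fM b) (A b) U) (p : Cp b o o') :
    ∃ m q, b.State m q ∧ ∀ v < b.n,
      (m v ≠ 2 ↔ ind U (o + (fB b + v)) (o + cd b (fB b + v)) = 1) ∧
      (m v ≠ 1 ↔ ind U (o + (fB b + v)) (o + (fB b + v) + 1) = 1) := by
  have k := cnt_of h c p
  have us := @used b U o o' h c p
  set P := fun x => ind U (o + x) (o + x + 1) with hP
  set C := fun x => ind U (o + x) (o + cd b x) with hC
  change ∀ {x y : ℕ}, x < fM b → 0 < x → x + 1 < fM b → U (o + x) y →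
    (y = o + (x - 1) ∧ P (x - 1) = 1) ∨ (y = o + (x + 1) ∧ P x = 1) ∨
    (y = o + cd b x ∧ C x = 1) ∨ _ at us
  change ∃ m q, b.State m q ∧ ∀ v < b.n, (m v ≠ 2 ↔ C (fB b + v) = 1) ∧
    (m v ≠ 1 ↔ P (fB b + v) = 1)
  have n2 := two_le h
  have e := fB_eq b
  have e' := fM_eq b
  have pp := p
  unfold Cp at pp
  let m : ℕ → ℕ := fun v => if P (fB b + v - 1) = 0 then 0 else if P (fB b + v) = 0 then 1 else 2
  have tri : ∀ v < b.n, m v ≤ 2 ∧ (m v ≠ 0 ↔ P (fB b + v - 1) = 1) ∧
      (m v ≠ 1 ↔ P (fB b + v) = 1) ∧ (m v ≠ 2 ↔ C (fB b + v) = 1) := fun v hv => by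
    have a1 := (k.board h hv).1
    have a2 := k.pl (fB b + v - 1)
    have a3 := k.pl (fB b + v)
    have a4 := k.cl (fB b + v)
    simp only [m]
    split_ifs <;> omega
  obtain ⟨q, q1, q2, q3, q4⟩ := k.exit h
  refine ⟨m, q, ⟨⟨fun v hv => (tri v hv).1, fun v hv => ?_, fun v hv z y => ?_⟩, ?_, q1, q2, ?_,
    fun v hv z => ?_, fun X ⟨v, hv, x1⟩ x0 => ?_⟩, fun v hv => ⟨(tri v hv).2.2.2, (tri v hv).2.2.1⟩⟩
  · have a1 := (tri v (by omega)).2.2.1
    have a2 := (tri (v + 1) hv).2.1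
    rw [show fB b + (v + 1) - 1 = fB b + v by omega] at a2
    omega
  · have a1 := (tri v hv).2.2.2
    have a2 := (tri _ (h.chord v hv z).1).2.2.2
    have a3 := ((k.board h hv).2.2 z).1
    omega
  · rw [(tri 0 h.pos).2.1, show fB b + 0 - 1 = 9 * (b.n - 2) + 8 by omega]
    exact ((k.main h).1 (b.n - 2) (by omega)).1
  · have a1 := (tri (b.n - 1) (by omega)).2.2.1
    have a2 := k.pl (fB b + b.n - 1)
    rw [show fB b + (b.n - 1) = fB b + b.n - 1 by omega] at a1
    omega
  · rw [(tri v hv).2.2.2, q4 v hv z]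
  · obtain ⟨x, y, x', y', h1, h2, h3, h4, h5, h6, h7⟩ :=
      c.cut (fun x => ∃ v < b.n, x = o + (fB b + v) ∧ X v)
        ⟨o + (fB b + v), by omega, v, hv, rfl, x1⟩ ⟨o, by omega, fun ⟨z, a1, a2, _⟩ => by omega⟩
    have key : ∀ x y, (∃ v < b.n, x = o + (fB b + v) ∧ X v) →
        ¬ (∃ v < b.n, y = o + (fB b + v) ∧ X v) → U x y →
        (x = o + (fB b + q) ∧ y = o + zp b q) ∨
          ∃ u < b.n, ∃ v < b.n, X u ∧ ¬ X v ∧ b.Used m u v := by
      clear h7 pp q2
      rintro x y ⟨u, hu, rfl, xu⟩ hy a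
      have u0 : u ≠ 0 := fun z => x0 (z ▸ xu)
      obtain ⟨-, t1, t2, t3⟩ := tri u hu
      rcases us (by omega) (by omega) (by omega) a with ⟨z, w⟩ | ⟨z, w⟩ | ⟨z, w⟩ | ⟨r, r1, z, -⟩
      · exact Or.inr ⟨u, hu, u - 1, by omega, xu, fun s => hy ⟨u - 1, by omega, by omega, s⟩,
          Or.inr (Or.inl ⟨by omega, t1.2 w⟩)⟩
      · by_cases l : u + 1 < b.n
        · exact Or.inr ⟨u, hu, u + 1, l, xu, fun s => hy ⟨u + 1, l, by omega, s⟩,
            Or.inl ⟨rfl, t2.2 w⟩⟩
        · have a1 := zp_spec b q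
          rw [show fB b + b.n - 1 = fB b + u by omega] at q3
          exact Or.inl ⟨by omega, by omega⟩
      · rw [cd_board hu] at z
        rcases t_spec h hu with ⟨s, c1, c2, c3⟩ | ⟨s, c1, c2, c3, c4, c5, -⟩
        · have := (q4 u hu s).1 w
          subst this
          exact Or.inl ⟨rfl, by rw [z, c2]⟩
        · exact Or.inr ⟨u, hu, b.ch u, c1, xu, fun s => hy ⟨_, c1, by rw [z, c5], s⟩,
            Or.inr (Or.inr ⟨s, rfl, t3.2 w⟩)⟩
      · exact absurd z (nz_board hu r1)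
    rcases key x y h1 h2 h3 with a | a
    · rcases key x' y' h4 h5 h6 with a' | a'
      · exact absurd ⟨a.1.trans a'.1.symm, a.2.trans a'.2.symm⟩ h7
      · exact a'
    · exact a

theorem sem_of (h : b.Valid) {m : ℕ → ℕ} {q : ℕ} (s : b.State m q) {tok : ℕ → Bool}
    (e : ∀ v < b.n, b.kd v ≠ 0 → tok v = decide (m v ≠ 2)) : b.Sem tok := by
  have ec : ∀ v < b.n, b.kd v ≠ 0 → tok (b.ch v) = decide (m (b.ch v) ≠ 2) := fun v hv k => by
    obtain ⟨c1, -, -, -, c5⟩ := h.chord v hv k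
    exact e _ c1 (by unfold okc at c5; omega)
  obtain ⟨s1, s2, s3⟩ := sem h s
  refine ⟨fun v hv k => ?_, fun v hv k => ?_, fun u hu k => ?_⟩
  · have a0 := h.nxt hv (by omega)
    have a1 := h.pair v a0
    rw [ec v hv (by omega), e _ a0 (by unfold okp at a1; omega)]
    exact s1 v hv k
  · have := s2 v hv k
    obtain ⟨u, rfl⟩ := h.prv (v := v) (by omega)
    have a1 := h.pair u hv
    rw [ec _ hv (by omega), e (u + 1 - 1) (by omega) (by unfold okp at a1; simp; omega)]
    exact this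
  · have := s3 u hu k
    obtain ⟨c1, -, -, -, c5⟩ := h.chord u hu (by omega)
    obtain ⟨p1, p2, -, p4⟩ := h.poly u hu k
    have k7 : b.kd (b.ch u) = 7 := by unfold okc at c5; omega
    have a0 := h.nxt c1 (by omega)
    have a2 := h.pair _ a0
    have e1 := e _ a0 (by unfold okp at a2; omega)
    have eo : ∀ w, u < w → w < b.ch u → _ := fun w w1 w2 =>
      ec w (by omega) (by have := (p4 w w1 w2).1; omega)
    have e0 : tok (u - 1) = decide (m (u - 1) ≠ 2) := by
      obtain ⟨x, rfl⟩ := h.prv (v := u) (by omega)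
      have a1 := h.pair x hu
      exact e _ (by omega) (by unfold okp at a1; simp; omega)
    rw [e0, e1, eo (u + 1) (by omega) (by omega)]
    rcases (by omega : b.ch u = u + 2 ∨ b.ch u = u + 3 ∨ b.ch u = u + 4) with z | z | z
    · rw [show b.ch u - u = 2 by omega] at this ⊢
      simpa [polyR] using this
    · rw [eo (u + 2) (by omega) (by omega)]
      rw [show b.ch u - u = 3 by omega] at this ⊢
      simpa [polyR] using this
    · rw [eo (u + 2) (by omega) (by omega), eo (u + 3) (by omega) (by omega)]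
      exact this

theorem cells_home (h : b.Valid) (c : GC (2 * fM b) (A b) U) (p : Cp b o o')
    (hb : ∀ v < b.n, U (o + (fB b + v)) (o + (fB b + v) + 1)) :
    ∀ x, x + 1 < fM b → U (o + x) (o + x + 1) := by
  have k := cnt_of h c p
  have us := @used b U o o' h c p
  set P := fun x => ind U (o + x) (o + x + 1) with hP
  set C := fun x => ind U (o + x) (o + cd b x) with hC
  change ∀ {x y : ℕ}, x < fM b → 0 < x → x + 1 < fM b → U (o + x) y →
    (y = o + (x - 1) ∧ P (x - 1) = 1) ∨ (y = o + (x + 1) ∧ P x = 1) ∨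
    (y = o + cd b x ∧ C x = 1) ∨
    ∃ v, v + 1 < b.n ∧ x = zp b (v + 1) ∧ 1 ≤ C (9 * v + 2) + C (9 * v + 8) at us
  have n2 := two_le h
  have e := fB_eq b
  have e' := fM_eq b
  have pp := p
  unfold Cp at pp
  obtain ⟨m1, m2⟩ := k.main h
  have l : P (fB b + b.n - 1) = 1 := by
    rw [show fB b + b.n - 1 = fB b + (b.n - 1) by omega]
    exact ind_one.2 (hb _ (by omega))
  have z0 : ∀ u < b.n, C (zp b u) = 0 := fun u hu =>
    Finset.sum_eq_zero_iff.1 (by omega : ∑ u ∈ Finset.range b.n, C (zp b u) = 0) u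
      (Finset.mem_range.2 hu)
  have f0 : ∀ v, v + 1 < b.n → C (9 * v + 2) + C (9 * v + 8) = 0 := fun v hv => by
    rw [(m1 v hv).2]
    exact Finset.sum_eq_zero fun u hu => z0 u (by have := Finset.mem_range.1 hu; omega)
  have cell : ∀ v, v + 1 < b.n → ∀ j < 9, P (9 * v + j) = 1 := fun v hv => by
    obtain ⟨a1, a2, a3, a4, a5, a6, a7, -⟩ := k.cell h hv
    have a8 := f0 v hv
    have a9 := (m1 v hv).1
    have b5 : C (9 * v + 5) = 0 := by
      have := z0 v (by omega)
      rwa [show zp b v = 9 * v + 5 by have := zp_spec b v; omega] at this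
    have b0 : P (9 * v) + C (9 * v) = 1 ∧ P (9 * v + 4) + P (9 * v + 5) = 2 := by
      cases v with
      | zero =>
        have := k.zero
        have := (k.cell0 h).1
        simp only [Nat.mul_zero, Nat.zero_add] at *
        omega
      | succ v =>
        obtain ⟨d1, d2, -⟩ := k.cellS h (v := v) hv
        have := f0 v (by omega)
        have := (m1 v (by omega)).1
        omega
    have l1 := k.pl (9 * v + 1)
    have l2 := k.pl (9 * v + 2)
    have l4 := k.pl (9 * v + 4)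
    have l5 := k.pl (9 * v + 5)
    have l0 := k.pl (9 * v)
    have p0 : P (9 * v) = 1 := by
      by_contra hc
      obtain ⟨x, y, -, -, ⟨j, j1, j2, rfl⟩, h2, h3, -⟩ :=
        c.cut (fun x => ∃ j, 1 ≤ j ∧ j ≤ 6 ∧ x = o + (9 * v + j))
          ⟨_, by omega, 1, le_rfl, by omega, rfl⟩ ⟨o, by omega, fun ⟨z, _, _, _⟩ => by omega⟩
      have h2' : ∀ i, 1 ≤ i → i ≤ 6 → y ≠ o + (9 * v + i) := fun i i1 i2 z => h2 ⟨i, i1, i2, z⟩
      obtain ⟨-, c1, -, c3, c4, -, c6, -⟩ := cd_cell hv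
      rcases us (by omega) (by omega) (by omega) h3 with ⟨z, w⟩ | ⟨z, w⟩ | ⟨z, w⟩ | ⟨r, r1, -, w⟩
      · by_cases y1 : j = 1
        · subst y1
          exact hc w
        · exact h2' (j - 1) (by omega) (by omega) (by omega)
      · by_cases y1 : j = 6
        · subst y1
          omega
        · exact h2' (j + 1) (by omega) (by omega) (by omega)
      · interval_cases j
        · exact h2' 4 (by omega) (by omega) (by omega)
        · omega
        · exact h2' 6 (by omega) (by omega) (by omega)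
        · exact h2' 1 (by omega) (by omega) (by omega)
        · omega
        · exact h2' 3 (by omega) (by omega) (by omega)
      · have := f0 r r1
        omega
    intro j hj
    interval_cases j
    · exact p0
    all_goals omega
  intro x hx
  by_cases y : x < fB b
  · have := cell (x / 9) (by omega) (x % 9) (by omega)
    rw [Nat.div_add_mod] at this
    exact ind_one.1 this
  · obtain ⟨v, rfl⟩ := Nat.exists_eq_add_of_le (not_lt.1 y)
    exact hb v (by omega)

open Classical in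
/-- the tokens of one copy -/
theorem copy_sem (h : b.Valid) (c : GC (2 * fM b) (A b) U) (p : Cp b o o') :
    b.Sem (fun v => decide (U (o + fB b + v) (o + fB b + b.ch v))) ∧
      ((∀ v < b.n, b.kd v = 1 ∨ b.kd v = 2 → ¬ U (o + fB b + v) (o + fB b + b.ch v)) →
        ∀ x, x + 1 < fM b → U (o + x) (o + x + 1)) := by
  obtain ⟨m, q, s, hm⟩ := state_of h c p
  have e : ∀ v < b.n, b.kd v ≠ 0 → (U (o + fB b + v) (o + fB b + b.ch v) ↔ m v ≠ 2) :=
    fun v hv k => by
    rw [(hm v hv).1, ind_one, cd_board hv, t1, if_neg k, Nat.add_assoc, Nat.add_assoc]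
  refine ⟨sem_of h s fun v hv k => decide_eq_decide.2 (e v hv k), fun hT => ?_⟩
  refine cells_home h c p fun v hv => ind_one.1 ((hm v hv).2.1 ?_)
  have := home h s (fun v hv k => not_not.1 (mt (e v hv (by omega)).2 (hT v hv k))) v hv
  omega

theorem all_home (h : b.Valid) (c : GC (2 * fM b) (A b) U)
    (h0 : ∀ x, x + 1 < fM b → U (0 + x) (0 + x + 1))
    (h1 : ∀ x, x + 1 < fM b → U (fM b + x) (fM b + x + 1))
    (x y : ℕ) (hx : x < 2 * fM b) (hy : y < 2 * fM b) :
    U x y ↔ y = x + 1 ∨ x = y + 1 ∨ (x = 2 * fM b - 1 ∧ y = 0) ∨ (y = 2 * fM b - 1 ∧ x = 0) := by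
  have n2 := two_le h
  have e' := fM_eq b
  simp only [Nat.zero_add] at h0
  have k2 : ∀ x, x + 1 < 2 * fM b → U x (x + 1) := fun x hx => by
    rcases lt_trichotomy (x + 1) (fM b) with e | e | e
    · exact h0 x e
    · have := cut_used h c (Or.inl ⟨rfl, rfl⟩)
      rwa [← e, Nat.zero_add, Nat.add_sub_cancel] at this
    · have := h1 (x - fM b) (by omega)
      rwa [show fM b + (x - fM b) = x by omega] at this
  have k3 : U (2 * fM b - 1) 0 := by
    have := cut_used h c (Or.inr ⟨rfl, rfl⟩)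
    rwa [show fM b + (fM b - 1) = 2 * fM b - 1 by omega] at this
  obtain ⟨a, d, -, t⟩ := c.two x hx
  have s1 : U x (if x + 1 = 2 * fM b then 0 else x + 1) := by
    split_ifs with z
    · rwa [show x = 2 * fM b - 1 by omega]
    · exact k2 x (by omega)
  have s2 : U x (if x = 0 then 2 * fM b - 1 else x - 1) := by
    split_ifs with z
    · rw [z]
      exact c.symm _ _ k3
    · have := c.symm _ _ (k2 (x - 1) (by omega))
      rwa [show x - 1 + 1 = x by omega] at this
  rw [t] at s1 s2 ⊢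
  split_ifs at s1 s2 <;> omega

end Pool.Agent.Lib.MP_33ce69_lc.Odd.Five
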